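import Pool.Agent.H630AD.Red
import Pool.Agent.W994.AR.Hom

/-!
# Promise constraint satisfaction problems that pp-construct approximate graph colouring

If a pair of templates (on finite or infinite domains) pp-constructs the problem of telling the
`K`-colourable graphs from the graphs without colouring with `2K-2` colours, then parity systems
reduce to its instances by ORs of the inputs. Equalities in the pp-formula are taken care of by the
names of the variables: two variables get the same name if they have the same values for all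
pairs of different colours.
-/

open scoped Classical
open Finset

namespace Pool.Agent.TH668.Csp

open H630VC H630XR H630GI H630SD H630CD H630AC
open Pool.Agent.W994.AR (Str Atom)

/-- `(𝔸, 𝔹)` pp-constructs the problem of telling the `K`-colourable graphs from the graphs without
colouring with `2K-2` colours: a conjunction `Φ` of atomic formulas in the variables
`x 0, ..., x (n-1), y 0, ..., y (n-1), u 0, ..., u (q-1)` defines a binary relation
`E (x, y) ↔ ∃ u, Φ` on `n`-tuples, there is a homomorphism from the complete graph with `K` vertices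
to `(A^n; E)`, and there is a homomorphism from `(B^n; E)` to the complete graph with `2K-2`
vertices. -/
def Constructs {A B ι : Type} {ar : ι → ℕ} (𝔸 : Str ι ar A) (𝔹 : Str ι ar B) (K : ℕ) : Prop :=
  ∃ (n q : ℕ) (Φ : List (Atom ι ar ((Fin n ⊕ Fin n) ⊕ Fin q))), 1 ≤ n ∧
    (∃ f : Fin K → Fin n → A, ∀ i j, i ≠ j →
      ∃ u : Fin q → A, ∀ φ ∈ Φ, φ.Holds 𝔸 (Sum.elim (Sum.elim (f i) (f j)) u)) ∧
    ∃ g : (Fin n → B) → Fin (2 * K - 2), ∀ x y : Fin n → B, ∀ u : Fin q → B,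
      (∀ φ ∈ Φ, φ.Holds 𝔹 (Sum.elim (Sum.elim x y) u)) → g x ≠ g y

variable {A : Type} {κ k b : ℕ}

theorem zero_ne_one' : (0 : Fin (κ + 3)) ≠ 1 := by
  simp

theorem add_one_ne' (c : Fin (κ + 3)) : c + 1 ≠ c := by
  intro h
  have h1 : (1 : Fin (κ + 3)) = 0 := by simp at h
  exact zero_ne_one' h1.symm

theorem exists_third (x y : Fin (κ + 3)) : ∃ c, c ≠ x ∧ c ≠ y := by
  by_contra hcon
  push Not at hcon
  have h1 : (univ : Finset (Fin (κ + 3))) ⊆ {x, y} := by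
    intro c _
    by_cases hc : c = x
    · simp [hc]
    · simp [hcon c hc]
  have h2 := card_le_card h1
  rw [card_univ, Fintype.card_fin] at h2
  have h3 : ({x, y} : Finset (Fin (κ + 3))).card ≤ 2 := card_le_two
  omega

/-- the edges of the tables -/
abbrev Ed (K k b : ℕ) : Type := Fin k × Cl (Fin b) 4 × (Fin 8 → Fin K) × (Fin 8 → Fin K)

/-- the names of the variables -/
abbrev Nm (A : Type) (K k b : ℕ) : Type :=
  A ⊕ ((Wd (Fin K) k b × (Fin K → A)) ⊕ (Ed K k b × (Fin K → Fin K → A)))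

/-- the first vertex of an edge -/
noncomputable def e1 {K : ℕ} (ed : Ed K k b) : Wd (Fin K) k b := (ed.1, loc ed.2.1 ed.2.2.1)

/-- the second vertex of an edge -/
noncomputable def e2 {K : ℕ} (ed : Ed K k b) : Wd (Fin K) k b := (ed.1, loc ed.2.1 ed.2.2.2)

/-- normalisation on the diagonal -/
noncomputable def nz (h : Fin (κ + 3) → Fin (κ + 3) → A) : Fin (κ + 3) → Fin (κ + 3) → A :=
  fun c c' => if c = c' then h 0 1 else h c c'

theorem nz_ne (h : Fin (κ + 3) → Fin (κ + 3) → A) {c c' : Fin (κ + 3)} (hc : c ≠ c') :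
    nz h c c' = h c c' := if_neg hc

theorem nz_congr {h h' : Fin (κ + 3) → Fin (κ + 3) → A} (H : ∀ c c', c ≠ c' → h c c' = h' c c') :
    nz h = nz h' := by
  funext c c'
  unfold nz
  by_cases hc : c = c'
  · rw [if_pos hc, if_pos hc]
    exact H 0 1 zero_ne_one'
  · rw [if_neg hc, if_neg hc]
    exact H c c' hc

/-- the name of a variable with the values `h c c'` at an edge -/
noncomputable def nm0 (w w' : Wd (Fin (κ + 3)) k b) (ed : Ed (κ + 3) k b)
    (h : Fin (κ + 3) → Fin (κ + 3) → A) : Nm A (κ + 3) k b :=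
  if ∀ c c', c ≠ c' → h c c' = h 0 1 then .inl (h 0 1)
  else if ∀ c c', c ≠ c' → h c c' = h c (c + 1) then .inr (.inl (w, fun c => h c (c + 1)))
  else if ∀ c c', c ≠ c' → h c c' = h (c' + 1) c' then .inr (.inl (w', fun c' => h (c' + 1) c'))
  else .inr (.inr (ed, h))

/-- the name of a variable at an edge -/
noncomputable def nm (ed : Ed (κ + 3) k b) (h : Fin (κ + 3) → Fin (κ + 3) → A) :
    Nm A (κ + 3) k b := nm0 (e1 ed) (e2 ed) ed (nz h)

/-- the name of a variable at a vertex -/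
noncomputable def vnm (w : Wd (Fin (κ + 3)) k b) (P : Fin (κ + 3) → A) : Nm A (κ + 3) k b :=
  if ∀ c, P c = P 0 then .inl (P 0) else .inr (.inl (w, P))

theorem nm_left (ed : Ed (κ + 3) k b) (P : Fin (κ + 3) → A) :
    nm ed (fun c _ => P c) = vnm (e1 ed) P := by
  unfold nm nm0 vnm
  by_cases hP : ∀ c, P c = P 0
  · rw [if_pos hP, if_pos, nz_ne _ zero_ne_one']
    intro c c' hc
    rw [nz_ne _ hc, nz_ne _ zero_ne_one', hP c]
  · rw [if_neg hP, if_neg, if_pos]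
    · congr 3
      funext c
      rw [nz_ne _ (add_one_ne' c).symm]
    · intro c c' hc
      rw [nz_ne _ hc, nz_ne _ (add_one_ne' c).symm]
    · intro h
      apply hP
      intro c
      have h1 := h c (c + 1) (add_one_ne' c).symm
      rwa [nz_ne _ (add_one_ne' c).symm, nz_ne _ zero_ne_one'] at h1

theorem nm_right (ed : Ed (κ + 3) k b) (Q : Fin (κ + 3) → A) :
    nm ed (fun _ c' => Q c') = vnm (e2 ed) Q := by
  unfold nm nm0 vnm
  by_cases hQ : ∀ c, Q c = Q 0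
  · rw [if_pos hQ, if_pos, nz_ne _ zero_ne_one', hQ 1]
    intro c c' hc
    rw [nz_ne _ hc, nz_ne _ zero_ne_one', hQ c', hQ 1]
  · rw [if_neg hQ, if_neg, if_neg, if_pos]
    · congr 3
      funext c
      rw [nz_ne _ (add_one_ne' c)]
    · intro c c' hc
      rw [nz_ne _ hc, nz_ne _ (add_one_ne' c')]
    · intro h
      apply hQ
      intro x
      obtain ⟨c, hcx, hc0⟩ := exists_third x 0
      have h1 := h c x hcx
      have h2 := h c 0 hc0
      rw [nz_ne _ hcx, nz_ne _ (add_one_ne' c).symm] at h1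
      rw [nz_ne _ hc0, nz_ne _ (add_one_ne' c).symm] at h2
      rw [h1, h2]
    · intro h
      apply hQ
      have h1 : ∀ x, Q x = Q 1 := by
        intro x
        obtain ⟨c, hcx, -⟩ := exists_third x 0
        have h1 := h c x hcx
        rwa [nz_ne _ hcx, nz_ne _ zero_ne_one'] at h1
      intro x
      rw [h1 x, h1 0]

/-- the values of the names given by a colouring -/
def asg (col' : Wd (Fin (κ + 3)) k b → Fin (κ + 3)) (s : Fin k → Cl (Fin b) 4 → Fin 8) :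
    Nm A (κ + 3) k b → A
  | .inl a => a
  | .inr (.inl (w, P)) => P (col' w)
  | .inr (.inr (ed, h)) => h (ed.2.2.1 (s ed.1 ed.2.1)) (ed.2.2.2 (s ed.1 ed.2.1))

theorem asg_nm (col' : Wd (Fin (κ + 3)) k b → Fin (κ + 3)) (s : Fin k → Cl (Fin b) 4 → Fin 8)
    (ed : Ed (κ + 3) k b) (h : Fin (κ + 3) → Fin (κ + 3) → A)
    (h1 : col' (e1 ed) = ed.2.2.1 (s ed.1 ed.2.1)) (h2 : col' (e2 ed) = ed.2.2.2 (s ed.1 ed.2.1))
    (hne : ed.2.2.1 (s ed.1 ed.2.1) ≠ ed.2.2.2 (s ed.1 ed.2.1)) :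
    asg col' s (nm ed h) = h (ed.2.2.1 (s ed.1 ed.2.1)) (ed.2.2.2 (s ed.1 ed.2.1)) := by
  unfold nm nm0
  split_ifs with c1 c2 c3
  · show nz h 0 1 = _
    rw [← c1 _ _ hne, nz_ne _ hne]
  · show nz h (col' (e1 ed)) (col' (e1 ed) + 1) = _
    rw [h1, ← c2 _ _ hne, nz_ne _ hne]
  · show nz h (col' (e2 ed) + 1) (col' (e2 ed)) = _
    rw [h2, ← c3 _ _ hne, nz_ne _ hne]
  · show nz h _ _ = _
    rw [nz_ne _ hne]

variable {B ι : Type} {ar : ι → ℕ} {n q : ℕ}

/-- the values of the variables of the formula as functions of the two colours -/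
def hf (f : Fin (κ + 3) → Fin n → A) (u : Fin (κ + 3) → Fin (κ + 3) → Fin q → A) :
    (Fin n ⊕ Fin n) ⊕ Fin q → Fin (κ + 3) → Fin (κ + 3) → A
  | .inl (.inl i) => fun c _ => f c i
  | .inl (.inr i) => fun _ c' => f c' i
  | .inr j => fun c c' => u c c' j

theorem hf_eq (f : Fin (κ + 3) → Fin n → A) (u : Fin (κ + 3) → Fin (κ + 3) → Fin q → A)
    (c c' : Fin (κ + 3)) :
    Sum.elim (Sum.elim (f c) (f c')) (u c c') = fun v => hf f u v c c' := by
  funext v
  rcases v with (i | i) | j <;> rfl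

/-- the constraints of a clause -/
def gadp (Φ : List (Atom ι ar ((Fin n ⊕ Fin n) ⊕ Fin q))) (f : Fin (κ + 3) → Fin n → A)
    (u : Fin (κ + 3) → Fin (κ + 3) → Fin q → A) {N : ℕ} (e : Nm A (κ + 3) k b → Fin N)
    (m : Fin k) (c : Cl (Fin b) 4) : Set (Con ar (Fin N)) :=
  {C | ∃ p q' : Fin 8 → Fin (κ + 3), (∀ s, p s ≠ q' s) ∧ ∃ (i : ι) (x : Fin (ar i) → _),
    Atom.rel i x ∈ Φ ∧ C = ⟨i, fun j => e (nm (m, c, p, q') (hf f u (x j)))⟩}

/-- the instance of a formula -/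
def pinst (Φ : List (Atom ι ar ((Fin n ⊕ Fin n) ⊕ Fin q))) (f : Fin (κ + 3) → Fin n → A)
    (u : Fin (κ + 3) → Fin (κ + 3) → Fin q → A) {N : ℕ} (e : Nm A (κ + 3) k b → Fin N)
    (F : BF k b 4) : Set (Con ar (Fin N)) :=
  {C | ∃ m, ∃ c ∈ F m, C ∈ gadp Φ f u e m c}

theorem pinst_inputs (Φ : List (Atom ι ar ((Fin n ⊕ Fin n) ⊕ Fin q)))
    (f : Fin (κ + 3) → Fin n → A) (u : Fin (κ + 3) → Fin (κ + 3) → Fin q → A) {N : ℕ}
    (e : Nm A (κ + 3) k b → Fin N) (F' : Set (Con ar (Fin N)) → ℝ)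
    (hF : F' ∈ conInputs ar (Fin N)) : (fun F => F' (pinst Φ f u e F)) ∈ orInputs k b 4 := by
  rcases hF with ⟨C, rfl⟩ | ⟨a, rfl⟩
  · refine Or.inl ⟨univ.filter fun p : Fin k × Cl (Fin b) 4 => C ∈ gadp Φ f u e p.1 p.2, ?_⟩
    funext F
    have h1 : C ∈ pinst Φ f u e F ↔ ∃ p ∈ univ.filter (fun p : Fin k × Cl (Fin b) 4 =>
        C ∈ gadp Φ f u e p.1 p.2), p.2 ∈ F p.1 := by
      constructor
      · rintro ⟨m, c, hc, h⟩
        exact ⟨(m, c), mem_filter.2 ⟨mem_univ _, h⟩, hc⟩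
      · rintro ⟨p, hp, hc⟩
        exact ⟨p.1, p.2, hc, (mem_filter.1 hp).2⟩
    rw [← ind_congr h1]
    unfold ind
    by_cases h2 : C ∈ pinst Φ f u e F
    · exact (if_pos h2).trans (if_pos h2).symm
    · exact (if_neg h2).trans (if_neg h2).symm
  · exact Or.inr ⟨a, rfl⟩

/-- an assignment of the instance in `𝔹` gives solutions of the parity systems -/
theorem podd {𝔸 : Str ι ar A} {𝔹 : Str ι ar B} (Φ : List (Atom ι ar ((Fin n ⊕ Fin n) ⊕ Fin q)))
    (f : Fin (κ + 3) → Fin n → A) (u : Fin (κ + 3) → Fin (κ + 3) → Fin q → A)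
    (hu : ∀ c c', c ≠ c' → ∀ φ ∈ Φ, φ.Holds 𝔸 (Sum.elim (Sum.elim (f c) (f c')) (u c c')))
    (g : (Fin n → B) → Fin (2 * (κ + 3) - 2))
    (hg : ∀ x y : Fin n → B, ∀ u : Fin q → B,
      (∀ φ ∈ Φ, φ.Holds 𝔹 (Sum.elim (Sum.elim x y) u)) → g x ≠ g y)
    {N : ℕ} (e : Nm A (κ + 3) k b → Fin N) (F : BF k b 4)
    (h : H630CD.Sat 𝔹 (pinst Φ f u e F)) (m : Fin k) :
    ∃ z : Fin b → Bool, ∀ c ∈ F m, OddSat z c := by
  obtain ⟨x, hx⟩ := h
  obtain ⟨X, hX⟩ : ∃ X : Wd (Fin (κ + 3)) k b → Fin n → B,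
      X = fun w i => x (e (vnm w fun c => f c i)) := ⟨_, rfl⟩
  refine ⟨fun v => decide (TY (fun d d' : Fin (κ + 3) => g (X (m, vx v d d')))),
    fun c hc => ?_⟩
  rw [oddSat_iff4]
  have hcl : ∀ p q' : Fin 8 → Fin (κ + 3), (∀ s, p s ≠ q' s) →
      g (X (m, loc c p)) ≠ g (X (m, loc c q')) := by
    intro p q' hpq
    have key : Sum.elim (Sum.elim (X (m, loc c p)) (X (m, loc c q')))
        (fun j => x (e (nm (m, c, p, q') (hf f u (.inr j))))) =
        fun v => x (e (nm (m, c, p, q') (hf f u v))) := by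
      funext v
      rcases v with (i | i) | j
      · show X (m, loc c p) i = x (e (nm (m, c, p, q') fun c _ => f c i))
        rw [nm_left, hX]
        rfl
      · show X (m, loc c q') i = x (e (nm (m, c, p, q') fun _ c' => f c' i))
        rw [nm_right, hX]
        rfl
      · rfl
    refine hg _ _ (fun j => x (e (nm (m, c, p, q') (hf f u (.inr j))))) fun φ hφ => ?_
    rw [key]
    cases φ with
    | eq v v' =>
      show x (e (nm (m, c, p, q') (hf f u v))) = x (e (nm (m, c, p, q') (hf f u v')))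
      have h1 : nz (hf f u v) = nz (hf f u v') := nz_congr fun c c' hcc => by
        have h2 := hu c c' hcc _ hφ
        rw [hf_eq] at h2
        exact h2
      unfold nm
      rw [h1]
    | rel i xx =>
      exact hx ⟨i, fun j => e (nm (m, c, p, q') (hf f u (xx j)))⟩
        ⟨m, c, hc, p, q', hpq, i, xx, hφ, rfl⟩
  have key : ∀ j : Fin 4, (fun d d' : Fin (κ + 3) => g (X (m, vx (c j).1 d d'))) =
      fun d d' => g (X (m, loc c fun s => if col (vb c) j s = true then d' else d)) := by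
    intro j
    funext d d'
    have := loc_cpt c j d d'
    unfold cpt at this
    rw [this]
  rw [key 0, key 1, key 2, key 3]
  have hcard : Fintype.card (Fin (2 * (κ + 3) - 2)) + 2 ≤ 2 * (κ + 3) := by
    rw [Fintype.card_fin]
    omega
  refine add8 (by omega) hcard (fun p => g (X (m, loc c p))) hcl (fun j => col (vb c) j) (vb c)
    fun s => ?_
  simp only [col, colv]
  generalize en8 s = v
  generalize vb c = β
  revert v β
  decide

/-- solutions of the parity systems give an assignment in `𝔸` -/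
theorem psat {𝔸 : Str ι ar A} (Φ : List (Atom ι ar ((Fin n ⊕ Fin n) ⊕ Fin q)))
    (f : Fin (κ + 3) → Fin n → A) (u : Fin (κ + 3) → Fin (κ + 3) → Fin q → A)
    (hu : ∀ c c', c ≠ c' → ∀ φ ∈ Φ, φ.Holds 𝔸 (Sum.elim (Sum.elim (f c) (f c')) (u c c')))
    (hn : 1 ≤ n) {N : ℕ} (e : Nm A (κ + 3) k b → Fin N)
    (he : ∀ (ed ed' : Ed (κ + 3) k b) (v v' : (Fin n ⊕ Fin n) ⊕ Fin q),
      e (nm ed (hf f u v)) = e (nm ed' (hf f u v')) → nm ed (hf f u v) = nm ed' (hf f u v'))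
    (F : BF k b 4) (z : Fin k → Fin b → Bool) (hz : ∀ m, ∀ c ∈ F m, OddSat (z m) c) :
    H630CD.Sat 𝔸 (pinst Φ f u e F) := by
  have hs : ∀ (m : Fin k) (c : Cl (Fin b) 4), ∃ s : Fin 8, OddSat (z m) c →
      ∀ j, col (vb c) j s = z m (c j).1 := by
    intro m c
    by_cases h : OddSat (z m) c
    · obtain ⟨s, hs⟩ := col_row (vb c) (fun j => z m (c j).1) ((oddSat_iff4 _ _).1 h)
      exact ⟨s, fun _ => hs⟩
    · exact ⟨0, fun h' => absurd h' h⟩
  choose s hs using hs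
  let val : Wd (Fin (κ + 3)) k b → Fin (κ + 3) := fun w => match w with
    | (_, .inl d) => d
    | (m, .inr (.inl (v, d, d'))) => if z m v = true then d' else d
    | (m, .inr (.inr (c, p))) => p (s m c)
  have key : ∀ m, ∀ c ∈ F m, ∀ p : Fin 8 → Fin (κ + 3), val (m, loc c p) = p (s m c) := by
    intro m c hc p
    by_cases h1 : ∃ d, p = fun _ => d
    · obtain ⟨d, rfl⟩ := h1
      rw [loc_const]
    · by_cases h2 : ∃ q : Fin 4 × Fin (κ + 3) × Fin (κ + 3), p = cpt (vb c) q.1 q.2.1 q.2.2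
      · unfold loc
        rw [dif_neg h1, dif_pos h2]
        have h3 := h2.choose_spec
        have h4 := hs m c (hz m c hc) h2.choose.1
        show (if z m (c h2.choose.1).1 = true then h2.choose.2.2 else h2.choose.2.1) = p (s m c)
        have h5 := congrFun h3 (s m c)
        rw [h5, cpt_apply, h4]
      · unfold loc
        rw [dif_neg h1, dif_neg h2]
  let dflt : A := f 0 ⟨0, hn⟩
  let x : Fin N → A := fun y =>
    if h : ∃ t : Ed (κ + 3) k b × ((Fin n ⊕ Fin n) ⊕ Fin q), e (nm t.1 (hf f u t.2)) = y then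
      asg val s (nm h.choose.1 (hf f u h.choose.2)) else dflt
  have hxe : ∀ ed v, x (e (nm ed (hf f u v))) = asg val s (nm ed (hf f u v)) := by
    intro ed v
    have h : ∃ t : Ed (κ + 3) k b × ((Fin n ⊕ Fin n) ⊕ Fin q),
        e (nm t.1 (hf f u t.2)) = e (nm ed (hf f u v)) := ⟨(ed, v), rfl⟩
    show (if h : ∃ t : Ed (κ + 3) k b × ((Fin n ⊕ Fin n) ⊕ Fin q),
        e (nm t.1 (hf f u t.2)) = e (nm ed (hf f u v)) then
        asg val s (nm h.choose.1 (hf f u h.choose.2)) else dflt) = _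
    rw [dif_pos h, he _ _ _ _ h.choose_spec]
  refine ⟨x, ?_⟩
  rintro C ⟨m, c, hc, p, q', hpq, i, xx, hφ, rfl⟩
  have h1 := hu (p (s m c)) (q' (s m c)) (hpq _) _ hφ
  rw [hf_eq] at h1
  have h2 : (fun j => x (e (nm (m, c, p, q') (hf f u (xx j))))) =
      fun j => hf f u (xx j) (p (s m c)) (q' (s m c)) := by
    funext j
    rw [hxe]
    exact asg_nm val s (m, c, p, q') _ (key m c hc p) (key m c hc q') (hpq _)
  show (fun j => x (e (nm (m, c, p, q') (hf f u (xx j))))) ∈ 𝔸 i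
  rw [h2]
  exact h1

/-- the reduction of parity systems -/
theorem pred {𝔸 : Str ι ar A} {𝔹 : Str ι ar B} (Φ : List (Atom ι ar ((Fin n ⊕ Fin n) ⊕ Fin q)))
    (f : Fin (κ + 3) → Fin n → A) (u : Fin (κ + 3) → Fin (κ + 3) → Fin q → A)
    (hu : ∀ c c', c ≠ c' → ∀ φ ∈ Φ, φ.Holds 𝔸 (Sum.elim (Sum.elim (f c) (f c')) (u c c')))
    (hn : 1 ≤ n) (g : (Fin n → B) → Fin (2 * (κ + 3) - 2))
    (hg : ∀ x y : Fin n → B, ∀ u : Fin q → B,
      (∀ φ ∈ Φ, φ.Holds 𝔹 (Sum.elim (Sum.elim x y) u)) → g x ≠ g y)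
    {N : ℕ} (hN1 : 1 ≤ N)
    (hN : k * ((16 * (((κ + 3) ^ 8) * ((κ + 3) ^ 8)) * (n + n + q)) * b ^ 4) ≤ N) :
    ∃ inst : BF k b 4 → Set (Con ar (Fin N)),
      PRed k b (conInputs ar (Fin N)) (fun F => ¬ H630CD.Sat 𝔹 F) (fun F => H630CD.Sat 𝔸 F)
        inst := by
  have hcard : Fintype.card (Set.range fun t : Ed (κ + 3) k b × ((Fin n ⊕ Fin n) ⊕ Fin q) =>
      nm t.1 (hf f u t.2)) ≤ Fintype.card (Fin N) := by
    rw [Fintype.card_fin]
    refine le_trans (Fintype.card_range_le _) (le_trans (le_of_eq ?_) hN)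
    have h1 : Fintype.card (Cl (Fin b) 4) = 16 * b ^ 4 := by rw [card_cl]; ring
    have h2 : Fintype.card (Fin 8 → Fin (κ + 3)) = (κ + 3) ^ 8 := by
      rw [Fintype.card_fun, Fintype.card_fin, Fintype.card_fin]
    rw [Fintype.card_prod, Fintype.card_prod, Fintype.card_prod, Fintype.card_prod,
      Fintype.card_sum, Fintype.card_sum, Fintype.card_fin, Fintype.card_fin, Fintype.card_fin,
      h1, h2]
    ring
  obtain ⟨emb⟩ := Function.Embedding.nonempty_of_card_le hcard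
  let e : Nm A (κ + 3) k b → Fin N := fun y =>
    if h : y ∈ Set.range fun t : Ed (κ + 3) k b × ((Fin n ⊕ Fin n) ⊕ Fin q) =>
      nm t.1 (hf f u t.2) then emb ⟨y, h⟩ else ⟨0, hN1⟩
  have he : ∀ (ed ed' : Ed (κ + 3) k b) (v v' : (Fin n ⊕ Fin n) ⊕ Fin q),
      e (nm ed (hf f u v)) = e (nm ed' (hf f u v')) →
      nm ed (hf f u v) = nm ed' (hf f u v') := by
    intro ed ed' v v' h
    have h1 : nm ed (hf f u v) ∈ Set.range fun t : Ed (κ + 3) k b × ((Fin n ⊕ Fin n) ⊕ Fin q) =>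
      nm t.1 (hf f u t.2) := ⟨(ed, v), rfl⟩
    have h2 : nm ed' (hf f u v') ∈ Set.range fun t : Ed (κ + 3) k b × ((Fin n ⊕ Fin n) ⊕ Fin q) =>
      nm t.1 (hf f u t.2) := ⟨(ed', v'), rfl⟩
    simp only [e, dif_pos h1, dif_pos h2] at h
    have h3 := emb.injective h
    exact congrArg Subtype.val h3
  exact ⟨pinst Φ f u e, fun F' hF' => pinst_inputs Φ f u e F' hF',
    fun F m h hs => h (podd Φ f u hu g hg e F hs m),
    fun F z hz => psat Φ f u hu hn e he F z hz⟩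

/-- the lower bound -/
theorem lower {A B ι : Type} {ar : ι → ℕ} (𝔸 : Str ι ar A) (𝔹 : Str ι ar B) (K : ℕ) (hK : 3 ≤ K)
    (hC : Constructs 𝔸 𝔹 K) (a c ξ : ℝ) (ha0 : 0 ≤ a) (ha : a < 1) (hc0 : 0 < c)
    (hc : c < (1 - a) / 52) (hξ : 0 < ξ) :
    ∃ N₀ : ℕ, ∀ N : ℕ, N₀ ≤ N → ∀ (R : Type) [Fintype R] [Nonempty R]
      (f : R → Set (Con ar (Fin N)) → ℝ) (l : R → List (Set (Con ar (Fin N)) → ℝ))
      (q : R → List (List ((Set (Con ar (Fin N)) → ℝ) × ℝ))),
      (∀ r, FProg (conInputs ar (Fin N)) (l r) (q r)) → (∀ r, f r ∈ l r) →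
      PDecides (fun F => ¬ H630CD.Sat 𝔹 F) (fun F => H630CD.Sat 𝔸 F) ξ f →
      (∀ r, (combos (q r) : ℝ) ≤ (N : ℝ) ^ a) →
      ∃ r, (2 : ℝ) ^ ((N : ℝ) ^ c) < (l r).length + wires (q r) := by
  obtain ⟨n, q, Φ, hn, ⟨f, hf'⟩, ⟨g, hg⟩⟩ := hC
  obtain ⟨κ, rfl⟩ : ∃ κ, K = κ + 3 := ⟨K - 3, by omega⟩
  have hu : ∀ c c' : Fin (κ + 3), ∃ u : Fin q → A, c ≠ c' →
      ∀ φ ∈ Φ, φ.Holds 𝔸 (Sum.elim (Sum.elim (f c) (f c')) u) := by
    intro c c'
    by_cases h : c = c'
    · exact ⟨fun _ => f 0 ⟨0, hn⟩, fun h' => absurd h h'⟩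
    · obtain ⟨u, hu⟩ := hf' c c' h
      exact ⟨u, fun _ => hu⟩
  choose u hu using hu
  have hM : 1 ≤ 16 * (((κ + 3) ^ 8) * ((κ + 3) ^ 8)) * (n + n + q) := by
    have : 0 < 16 * (((κ + 3) ^ 8) * ((κ + 3) ^ 8)) * (n + n + q) := by positivity
    omega
  obtain ⟨N₀, hN₀⟩ := plower_gen _ hM a c ξ ha0 ha hc0 hc hξ
  refine ⟨max N₀ 1, fun N hN R _ _ f' l q' hp hf'' hdec hcomb => ?_⟩
  exact hN₀ N (le_trans (le_max_left _ _) hN) _ (conInputs ar (Fin N))
    (fun F => ¬ H630CD.Sat 𝔹 F) (fun F => H630CD.Sat 𝔸 F)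
    (fun k b _ hkb => pred Φ f u (fun c c' h => hu c c' h) hn g hg
      (le_trans (le_max_right _ _) hN) hkb) R f' l q' hp hf'' hdec hcomb

/-- a structure that pp-constructs `K_3` constructs the colouring problem with three and four
colours -/
theorem constructs_of_k3 {A ι : Type} {ar : ι → ℕ} (𝔸 : Str ι ar A)
    (h : Pool.Agent.W994.AR.PPConstructsK3 𝔸) : Constructs 𝔸 𝔸 3 := by
  obtain ⟨n, E, hn, ⟨q, Φ, hE⟩, ⟨f, hf⟩, ⟨g, hg⟩⟩ := h
  refine ⟨n, q, Φ, hn, ⟨f, fun i j hij => (hE _).1 (hf i j hij)⟩,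
    ⟨fun x => Fin.castLE (by norm_num) (g x), fun x y u hu => ?_⟩⟩
  intro h1
  have h2 : Sum.elim x y ∈ E := (hE _).2 ⟨u, hu⟩
  exact hg x y h2 (Fin.castLE_injective _ h1)

end Pool.Agent.TH668.Csp
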